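import Mathlib

set_option autoImplicit false
open scoped InnerProductSpace ComplexOrder
open Filter Topology

namespace Pool.Agent.H79.HC

variable {H : Type*} [NormedAddCommGroup H] [InnerProductSpace ℂ H] [CompleteSpace H]

/-- The function `t ↦ (|t| + ε)^(-1/2)`. -/
noncomputable def sfun (ε : ℝ) (t : ℝ) : ℝ := (Real.sqrt (|t| + ε))⁻¹

lemma sfun_cont {ε : ℝ} (hε : 0 < ε) : Continuous (sfun ε) := by
  unfold sfun
  refine Continuous.inv₀ (by fun_prop) ?_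
  intro t
  have : 0 < |t| + ε := by positivity
  exact (Real.sqrt_pos.mpr this).ne'

/-- The operator `(B + ε)^(-1/2)`. -/
noncomputable def Sop (B : H →L[ℂ] H) (ε : ℝ) : H →L[ℂ] H := cfc (sfun ε) B

lemma spec_nonneg {B : H →L[ℂ] H} (hB : 0 ≤ B) {t : ℝ} (ht : t ∈ spectrum ℝ B) : 0 ≤ t :=
  spectrum_nonneg_of_nonneg hB ht

lemma Sop_sa (B : H →L[ℂ] H) (ε : ℝ) : IsSelfAdjoint (Sop B ε) := by
  unfold Sop
  exact cfc_predicate _ _

lemma Sop_comm {B U : H →L[ℂ] H} (hU : Commute B U) (ε : ℝ) : Commute (Sop B ε) U := by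
  unfold Sop
  exact Commute.cfc_real hU _

lemma sfun_sq {ε t : ℝ} (hε : 0 < ε) (ht : 0 ≤ t) : sfun ε t * sfun ε t = (t + ε)⁻¹ := by
  unfold sfun
  rw [abs_of_nonneg ht, ← mul_inv, Real.mul_self_sqrt (by positivity)]

lemma Sop_sq {B : H →L[ℂ] H} (hB : 0 ≤ B) {ε : ℝ} (hε : 0 < ε) :
    (B + (ε : ℂ) • (1 : H →L[ℂ] H)) * (Sop B ε * Sop B ε) = 1 := by
  have hsa : IsSelfAdjoint B := IsSelfAdjoint.of_nonneg hB
  have hc := sfun_cont hε
  have h1 : B + (ε : ℂ) • (1 : H →L[ℂ] H) = cfc (fun t : ℝ => t + ε) B := by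
    rw [cfc_add (R := ℝ) B (fun t => t) (fun _ => ε) (by fun_prop) (by fun_prop), cfc_id' ℝ B,
      cfc_const ε B]
    congr 1
  have hcc : Continuous (fun t => sfun ε t * sfun ε t) := hc.mul hc
  unfold Sop
  rw [← cfc_mul (sfun ε) (sfun ε) B hc.continuousOn hc.continuousOn, h1,
    ← cfc_mul (fun t : ℝ => t + ε) (fun t => sfun ε t * sfun ε t) B (by fun_prop) hcc.continuousOn]
  rw [← cfc_one ℝ B]
  apply cfc_congr
  intro t ht
  have h0 := spec_nonneg hB ht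
  simp only [Pi.one_apply]
  rw [sfun_sq hε h0]
  have : 0 < t + ε := by positivity
  field_simp

/-- The vector `(B + ε)^(-1) e` is the only solution of the equation. -/
lemma Sop_sol {B : H →L[ℂ] H} (hB : 0 ≤ B) {ε : ℝ} (hε : 0 < ε) {e k : H}
    (hk : B k + (ε : ℂ) • k = e) : (Sop B ε) ((Sop B ε) e) = k := by
  have h1 := Sop_sq hB hε
  have hcomm : Commute (B + (ε : ℂ) • (1 : H →L[ℂ] H)) (Sop B ε * Sop B ε) := by
    have h2 : Commute B (Sop B ε) := (Sop_comm (Commute.refl B) ε).symm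
    have h3 : Commute B (Sop B ε * Sop B ε) := h2.mul_right h2
    exact h3.add_left (by
      refine Commute.smul_left (Commute.one_left _) _)
  have h4 : (Sop B ε * Sop B ε) * (B + (ε : ℂ) • (1 : H →L[ℂ] H)) = 1 := by
    rw [← hcomm.eq, h1]
  have h5 : (B + (ε : ℂ) • (1 : H →L[ℂ] H)) k = e := by
    simpa using hk
  calc (Sop B ε) ((Sop B ε) e) = ((Sop B ε * Sop B ε) * (B + (ε : ℂ) • (1 : H →L[ℂ] H))) k := by
        rw [← h5]
        rfl
    _ = k := by rw [h4]; rfl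

lemma sfun_mono {ε ε' t : ℝ} (hε : 0 < ε) (h : ε ≤ ε') : sfun ε' t ≤ sfun ε t := by
  unfold sfun
  have h0 : 0 < |t| + ε := by positivity
  apply inv_anti₀ (Real.sqrt_pos.mpr h0)
  exact Real.sqrt_le_sqrt (by linarith)

lemma sfun_nonneg (ε t : ℝ) : 0 ≤ sfun ε t := by
  unfold sfun
  positivity

lemma inner_cfc_mono {B : H →L[ℂ] H} {f g : ℝ → ℝ} (hf : Continuous f) (hg : Continuous g)
    (h : ∀ t ∈ spectrum ℝ B, f t ≤ g t) (e : H) :
    (⟪cfc f B e, e⟫_ℂ).re ≤ (⟪cfc g B e, e⟫_ℂ).re := by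
  have h1 : cfc f B ≤ cfc g B := cfc_mono h hf.continuousOn hg.continuousOn
  rw [ContinuousLinearMap.le_def] at h1
  have h2 := h1.re_inner_nonneg_left e
  rw [sub_apply, inner_sub_left] at h2
  simp only [map_sub, RCLike.re_to_complex] at h2
  linarith

lemma norm_sq_of_sa {D : H →L[ℂ] H} (hD : IsSelfAdjoint D) (e : H) :
    ‖D e‖ ^ 2 = (⟪(D * D) e, e⟫_ℂ).re := by
  have h1 : ⟪(D * D) e, e⟫_ℂ = ⟪D e, D e⟫_ℂ := by
    have h2 := ContinuousLinearMap.adjoint_inner_left D e (D e)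
    rw [← ContinuousLinearMap.star_eq_adjoint, hD.star_eq] at h2
    exact h2
  rw [h1, inner_self_eq_norm_sq_to_K]
  norm_cast

/-- The Cauchy estimate. -/
lemma cauchy_est {B : H →L[ℂ] H} (hB : 0 ≤ B) {ε ε' : ℝ} (hε : 0 < ε) (hle : ε ≤ ε')
    {e k k' : H} (hk : B k + (ε : ℂ) • k = e) (hk' : B k' + (ε' : ℂ) • k' = e) :
    ‖Sop B ε e - Sop B ε' e‖ ^ 2 ≤ (⟪k, e⟫_ℂ).re - (⟪k', e⟫_ℂ).re := by
  have hε' : 0 < ε' := lt_of_lt_of_le hε hle
  have hc := sfun_cont hε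
  have hc' := sfun_cont hε'
  have hD : IsSelfAdjoint (Sop B ε - Sop B ε') := (Sop_sa B ε).sub (Sop_sa B ε')
  have h1 : ‖Sop B ε e - Sop B ε' e‖ ^ 2
      = (⟪((Sop B ε - Sop B ε') * (Sop B ε - Sop B ε')) e, e⟫_ℂ).re := by
    rw [← norm_sq_of_sa hD e]
    rfl
  have h2 : (Sop B ε - Sop B ε') * (Sop B ε - Sop B ε')
      = cfc (fun t => (sfun ε t - sfun ε' t) * (sfun ε t - sfun ε' t)) B := by
    unfold Sop
    rw [← cfc_sub (sfun ε) (sfun ε') B hc.continuousOn hc'.continuousOn]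
    rw [← cfc_mul (fun t => sfun ε t - sfun ε' t) (fun t => sfun ε t - sfun ε' t) B
      (hc.sub hc').continuousOn (hc.sub hc').continuousOn]
  have h3 : (⟪k, e⟫_ℂ).re - (⟪k', e⟫_ℂ).re
      = (⟪cfc (fun t => sfun ε t * sfun ε t - sfun ε' t * sfun ε' t) B e, e⟫_ℂ).re := by
    have hcc : Continuous (fun t => sfun ε t * sfun ε t) := hc.mul hc
    have hcc' : Continuous (fun t => sfun ε' t * sfun ε' t) := hc'.mul hc'
    rw [cfc_sub (fun t => sfun ε t * sfun ε t) (fun t => sfun ε' t * sfun ε' t) B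
      hcc.continuousOn hcc'.continuousOn]
    rw [cfc_mul (sfun ε) (sfun ε) B hc.continuousOn hc.continuousOn,
      cfc_mul (sfun ε') (sfun ε') B hc'.continuousOn hc'.continuousOn]
    rw [sub_apply, inner_sub_left, Complex.sub_re]
    rw [← Sop_sol hB hε hk, ← Sop_sol hB hε' hk']
    rfl
  rw [h1, h2, h3]
  apply inner_cfc_mono ((hc.sub hc').mul (hc.sub hc')) ((hc.mul hc).sub (hc'.mul hc'))
  intro t _
  have h4 := sfun_mono (t := t) hε hle
  have h5 := sfun_nonneg ε' t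
  simp only [Pi.mul_apply, Pi.sub_apply]
  nlinarith

/-- Convergence of the vectors `(B + ε)^(-1/2) e`. -/
lemma exists_lim {B : H →L[ℂ] H} (hB : 0 ≤ B) {e : H} {k : ℕ → H} {ε : ℕ → ℝ}
    (hε : ∀ n, 0 < ε n) (hanti : Antitone ε)
    (hk : ∀ n, B (k n) + (ε n : ℂ) • k n = e) {L : ℝ}
    (hL : Tendsto (fun n => (⟪k n, e⟫_ℂ).re) atTop (𝓝 L)) :
    ∃ η : H, Tendsto (fun n => Sop B (ε n) e) atTop (𝓝 η) := by
  have hC : CauchySeq (fun n => (⟪k n, e⟫_ℂ).re) := hL.cauchySeq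
  have hS : CauchySeq (fun n => Sop B (ε n) e) := by
    rw [Metric.cauchySeq_iff'] at hC ⊢
    intro δ hδ
    obtain ⟨N, hN⟩ := hC (δ ^ 2) (by positivity)
    refine ⟨N, fun n hn => ?_⟩
    have h1 := cauchy_est hB (hε n) (hanti hn) (hk n) (hk N)
    have h2 := hN n hn
    rw [Real.dist_eq] at h2
    have h3 := le_abs_self ((⟪k n, e⟫_ℂ).re - (⟪k N, e⟫_ℂ).re)
    rw [dist_eq_norm]
    exact lt_of_pow_lt_pow_left₀ 2 hδ.le (by linarith)
  exact cauchySeq_tendsto_of_complete hS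

/-- The square root of `B` maps the limit vector to `e`. -/
lemma sqrt_apply {B : H →L[ℂ] H} (hB : 0 ≤ B) {e : H} {k : ℕ → H} {ε : ℕ → ℝ}
    (hε : ∀ n, 0 < ε n) (hlim : Tendsto ε atTop (𝓝 0))
    (hk : ∀ n, B (k n) + (ε n : ℂ) • k n = e) {L : ℝ}
    (hL : Tendsto (fun n => (⟪k n, e⟫_ℂ).re) atTop (𝓝 L)) {η : H}
    (hη : Tendsto (fun n => Sop B (ε n) e) atTop (𝓝 η)) :
    cfc (fun t : ℝ => Real.sqrt |t|) B η = e := by
  have hs : Continuous (fun t : ℝ => Real.sqrt |t|) := by fun_prop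
  have hsa : IsSelfAdjoint B := IsSelfAdjoint.of_nonneg hB
  have h1 : Tendsto (fun n => cfc (fun t : ℝ => Real.sqrt |t|) B (Sop B (ε n) e)) atTop
      (𝓝 (cfc (fun t : ℝ => Real.sqrt |t|) B η)) :=
    ((cfc (fun t : ℝ => Real.sqrt |t|) B).continuous.tendsto η).comp hη
  have key : ∀ n, ‖cfc (fun t : ℝ => Real.sqrt |t|) B (Sop B (ε n) e) - e‖ ^ 2
      ≤ ε n * (⟪k n, e⟫_ℂ).re := by
    intro n
    have hc := sfun_cont (hε n)
    have hcs : Continuous (fun t : ℝ => Real.sqrt |t| * sfun (ε n) t - 1) :=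
      (hs.mul hc).sub continuous_const
    have h2 : cfc (fun t : ℝ => Real.sqrt |t| * sfun (ε n) t - 1) B
        = cfc (fun t : ℝ => Real.sqrt |t|) B * Sop B (ε n) - 1 := by
      have h3 : Continuous (fun t : ℝ => Real.sqrt |t| * sfun (ε n) t) := hs.mul hc
      rw [cfc_sub (fun t : ℝ => Real.sqrt |t| * sfun (ε n) t) (fun _ => 1) B h3.continuousOn
        continuousOn_const, cfc_mul (fun t : ℝ => Real.sqrt |t|) (sfun (ε n)) B hs.continuousOn
        hc.continuousOn, cfc_const_one ℝ B]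
      rfl
    have hD : IsSelfAdjoint (cfc (fun t : ℝ => Real.sqrt |t| * sfun (ε n) t - 1) B) :=
      cfc_predicate _ _
    have h4 : cfc (fun t : ℝ => Real.sqrt |t|) B (Sop B (ε n) e) - e
        = cfc (fun t : ℝ => Real.sqrt |t| * sfun (ε n) t - 1) B e := by
      rw [h2]
      rfl
    rw [h4, norm_sq_of_sa hD e, ← cfc_mul (fun t : ℝ => Real.sqrt |t| * sfun (ε n) t - 1)
      (fun t : ℝ => Real.sqrt |t| * sfun (ε n) t - 1) B hcs.continuousOn hcs.continuousOn]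
    have h5 : ε n * (⟪k n, e⟫_ℂ).re
        = (⟪cfc (fun t => ε n * (sfun (ε n) t * sfun (ε n) t)) B e, e⟫_ℂ).re := by
      have hcc : Continuous (fun t => sfun (ε n) t * sfun (ε n) t) := hc.mul hc
      rw [cfc_const_mul (ε n) (fun t => sfun (ε n) t * sfun (ε n) t) B hcc.continuousOn,
        cfc_mul (sfun (ε n)) (sfun (ε n)) B hc.continuousOn hc.continuousOn,
        ← Sop_sol hB (hε n) (hk n)]
      rw [smul_apply]
      have h6 : (ε n • ((cfc (sfun (ε n)) B * cfc (sfun (ε n)) B) e) : H)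
          = ((ε n : ℂ)) • ((Sop B (ε n)) ((Sop B (ε n)) e)) := rfl
      rw [h6, inner_smul_left]
      simp
    rw [h5]
    refine inner_cfc_mono (hcs.mul hcs) (continuous_const.mul (hc.mul hc)) ?_ e
    intro t ht
    have h0 := spec_nonneg hB ht
    have hpos : 0 < t + ε n := by linarith [hε n]
    have h7 := sfun_sq (hε n) h0
    have h8 : Real.sqrt |t| * Real.sqrt |t| = t := by
      rw [Real.mul_self_sqrt (abs_nonneg t), abs_of_nonneg h0]
    set a := Real.sqrt |t| * sfun (ε n) t with ha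
    have h9 : a * a = t * (t + ε n)⁻¹ := by
      rw [ha, ← h7]
      calc _ = (Real.sqrt |t| * Real.sqrt |t|) * (sfun (ε n) t * sfun (ε n) t) := by ring
        _ = _ := by rw [h8]
    have h10 : t * (t + ε n)⁻¹ + ε n * (t + ε n)⁻¹ = 1 := by
      field_simp
    have ha0 : 0 ≤ a := mul_nonneg (Real.sqrt_nonneg _) (sfun_nonneg _ _)
    have h11 : a ≤ 1 := by
      have h12 : 0 ≤ ε n * (t + ε n)⁻¹ := mul_nonneg (hε n).le (inv_nonneg.mpr hpos.le)
      nlinarith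
    change (a - 1) * (a - 1) ≤ ε n * (sfun (ε n) t * sfun (ε n) t)
    rw [h7]
    nlinarith
  have h13 : Tendsto (fun n => ε n * (⟪k n, e⟫_ℂ).re) atTop (𝓝 0) := by
    have := hlim.mul hL
    rwa [zero_mul] at this
  have h14 : Tendsto (fun n => ‖cfc (fun t : ℝ => Real.sqrt |t|) B (Sop B (ε n) e) - e‖ ^ 2) atTop
      (𝓝 0) := squeeze_zero (fun n => by positivity) key h13
  have h15 : Tendsto (fun n => ‖cfc (fun t : ℝ => Real.sqrt |t|) B (Sop B (ε n) e) - e‖ ^ 2) atTop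
      (𝓝 (‖cfc (fun t : ℝ => Real.sqrt |t|) B η - e‖ ^ 2)) :=
    ((h1.sub_const e).norm).pow 2
  have h16 := tendsto_nhds_unique h15 h14
  have h17 : ‖cfc (fun t : ℝ => Real.sqrt |t|) B η - e‖ = 0 := by
    exact pow_eq_zero_iff (two_ne_zero) |>.mp h16
  exact sub_eq_zero.mp (norm_eq_zero.mp h17)

/-- Operators that commute with `B` commute with its square root. -/
lemma sqrt_comm {B P : H →L[ℂ] H} (h : Commute B P) (x : H) :
    P (cfc (fun t : ℝ => Real.sqrt |t|) B x) = cfc (fun t : ℝ => Real.sqrt |t|) B (P x) :=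
  (congrArg (fun T : H →L[ℂ] H => T x) (Commute.cfc_real h (fun t : ℝ => Real.sqrt |t|)).eq).symm

/-- Coefficients of the limit vector. -/
lemma coeff_lim {B : H →L[ℂ] H} (hB : 0 ≤ B) {e : H} {k : ℕ → H} {ε : ℕ → ℝ}
    (hε : ∀ n, 0 < ε n) (hk : ∀ n, B (k n) + (ε n : ℂ) • k n = e) {η : H}
    (hη : Tendsto (fun n => Sop B (ε n) e) atTop (𝓝 η)) {U : H →L[ℂ] H} (hU : Commute B U) :
    Tendsto (fun n => ⟪U (k n), e⟫_ℂ) atTop (𝓝 ⟪U η, η⟫_ℂ) := by
  have h1 : Tendsto (fun n => ⟪U (Sop B (ε n) e), Sop B (ε n) e⟫_ℂ) atTop (𝓝 ⟪U η, η⟫_ℂ) :=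
    ((U.continuous.tendsto η).comp hη).inner hη
  refine h1.congr ?_
  intro n
  have h2 : ∀ x : H, (Sop B (ε n)) (U x) = U ((Sop B (ε n)) x) := by
    intro x
    have := (Sop_comm hU (ε n)).eq
    exact congrArg (fun T : H →L[ℂ] H => T x) this
  have h3 : ∀ x y : H, ⟪x, (Sop B (ε n)) y⟫_ℂ = ⟪(Sop B (ε n)) x, y⟫_ℂ := by
    intro x y
    have h4 := ContinuousLinearMap.adjoint_inner_left (Sop B (ε n)) y x
    rw [← ContinuousLinearMap.star_eq_adjoint, (Sop_sa B (ε n)).star_eq] at h4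
    exact h4.symm
  rw [h3, h2, Sop_sol hB (hε n) (hk n)]

/-- Operators that commute with `B` and agree at `e` agree at the limit vector. -/
lemma agree_lim {B : H →L[ℂ] H} {e : H} {ε : ℕ → ℝ} {η : H}
    (hη : Tendsto (fun n => Sop B (ε n) e) atTop (𝓝 η)) {U V : H →L[ℂ] H} (hU : Commute B U)
    (hV : Commute B V) (h : U e = V e) : U η = V η := by
  have h2 : ∀ (W : H →L[ℂ] H), Commute B W → ∀ n, (Sop B (ε n)) (W e) = W ((Sop B (ε n)) e) := by
    intro W hW n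
    have := (Sop_comm hW (ε n)).eq
    exact congrArg (fun T : H →L[ℂ] H => T e) this
  have h3 : Tendsto (fun n => U (Sop B (ε n) e)) atTop (𝓝 (U η)) :=
    (U.continuous.tendsto η).comp hη
  have h4 : Tendsto (fun n => V (Sop B (ε n) e)) atTop (𝓝 (V η)) :=
    (V.continuous.tendsto η).comp hη
  refine tendsto_nhds_unique h3 (h4.congr ?_)
  intro n
  rw [← h2 V hV n, ← h2 U hU n, h]

end Pool.Agent.H79.HC
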