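import Mathlib

set_option autoImplicit false
open scoped InnerProductSpace ComplexOrder
open Filter Topology

namespace Pool.Agent.H79.HC

/-- The Hilbert space of square summable complex functions on `G`. -/
abbrev L2 (G : Type) : Type := lp (fun _ : G => ℂ) 2

variable {G : Type}

lemma memlp_iff (u : G → ℂ) : Memℓp u 2 ↔ Summable (fun x => ‖u x‖ ^ 2) := by
  rw [memℓp_gen_iff (by norm_num)]
  simp

/-- The unitary operator of a bijection. -/
noncomputable def tr {G G' : Type} (σ : G ≃ G') : L2 G ≃ₗᵢ[ℂ] L2 G' where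
  toFun u := ⟨fun x => u (σ.symm x), by
    have h := (memlp_iff _).mp (lp.memℓp u)
    exact (memlp_iff _).mpr (h.comp_injective σ.symm.injective)⟩
  invFun u := ⟨fun x => u (σ x), by
    have h := (memlp_iff _).mp (lp.memℓp u)
    exact (memlp_iff _).mpr (h.comp_injective σ.injective)⟩
  left_inv u := by
    ext x
    simp
  right_inv u := by
    ext x
    simp
  map_add' u v := by
    ext x
    simp
  map_smul' c u := by
    ext x
    simp
  norm_map' u := by
    have h1 : (∑' x, ‖u (σ.symm x)‖ ^ 2) = ∑' x, ‖u x‖ ^ 2 :=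
      σ.symm.tsum_eq (fun x => ‖u x‖ ^ 2)
    have h2 : ∀ (A : Type) (v : L2 A), ‖v‖ ^ 2 = ∑' x, ‖v x‖ ^ 2 := by
      intro A v
      have := lp.norm_rpow_eq_tsum (p := 2) (by norm_num) v
      simpa using this
    have h3 : ‖(⟨fun x => u (σ.symm x), by
        have h := (memlp_iff _).mp (lp.memℓp u)
        exact (memlp_iff _).mpr (h.comp_injective σ.symm.injective)⟩ : L2 G')‖ ^ 2 = ‖u‖ ^ 2 := by
      rw [h2, h2]
      exact h1
    exact (sq_eq_sq₀ (norm_nonneg _) (norm_nonneg _)).mp h3

@[simp] lemma tr_apply {G G' : Type} (σ : G ≃ G') (u : L2 G) (x : G') :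
    tr σ u x = u (σ.symm x) := rfl

variable [Group G]

/-- The left regular representation: `(λ(g) u)(x) = u(g⁻¹ x)`. -/
noncomputable def lam (g : G) : L2 G ≃ₗᵢ[ℂ] L2 G := tr (Equiv.mulLeft g)

/-- The right regular representation: `(ρ(g) u)(x) = u(x g)`. -/
noncomputable def rho (g : G) : L2 G ≃ₗᵢ[ℂ] L2 G := tr (Equiv.mulRight g⁻¹)

@[simp] lemma lam_apply (g : G) (u : L2 G) (x : G) : lam g u x = u (g⁻¹ * x) := rfl

@[simp] lemma rho_apply (g : G) (u : L2 G) (x : G) : rho g u x = u (x * g) := by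
  unfold rho
  simp

/-- The left regular representation as a group homomorphism. -/
noncomputable def lamHom (G : Type) [Group G] : G →* (L2 G ≃ₗᵢ[ℂ] L2 G) where
  toFun g := lam g
  map_one' := by
    ext u x
    rw [lam_apply, inv_one, one_mul]
    rfl
  map_mul' g h := by
    ext u x
    change lam (g * h) u x = lam g (lam h u) x
    rw [lam_apply, lam_apply, lam_apply, mul_inv_rev, mul_assoc]

@[simp] lemma lamHom_apply (g : G) (u : L2 G) (x : G) : lamHom G g u x = u (g⁻¹ * x) := rfl

variable [DecidableEq G]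

/-- Point masses. -/
noncomputable def dl (x : G) : L2 G := lp.single 2 x (1 : ℂ)

lemma dl_apply (x y : G) : dl x y = if y = x then (1 : ℂ) else 0 := by
  unfold dl
  rw [lp.single_apply]
  by_cases h : y = x
  · subst h
    simp
  · simp [h]

lemma inner_dl (x : G) (u : L2 G) : ⟪dl x, u⟫_ℂ = u x := by
  unfold dl
  rw [lp.inner_single_left]
  simp

lemma inner_dl' (x : G) (u : L2 G) : ⟪u, dl x⟫_ℂ = starRingEnd ℂ (u x) := by
  rw [← inner_dl x u, inner_conj_symm]

lemma lam_dl (g x : G) : lam g (dl x) = dl (g * x) := by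
  ext y
  rw [lam_apply, dl_apply, dl_apply]
  congr 1
  rw [inv_mul_eq_iff_eq_mul]

lemma rho_dl (g x : G) : rho g (dl x) = dl (x * g⁻¹) := by
  ext y
  rw [rho_apply, dl_apply, dl_apply]
  congr 1
  rw [eq_mul_inv_iff_mul_eq]

end Pool.Agent.H79.HC
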