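import Mathlib

set_option autoImplicit false

namespace Pool.Agent.H79.HC

/-- Letters: free generators with a sign. -/
abbrev Lt (k : ℕ) := Fin k × Bool

variable {k : ℕ}

/-- The inverse letter. -/
def nv (a : Lt k) : Lt k := (a.1, !a.2)

lemma nv_nv (a : Lt k) : nv (nv a) = a := by
  simp [nv]

/-- The group element of a letter. -/
def el (a : Lt k) : FreeGroup (Fin k) := FreeGroup.mk [a]

lemma el_inv (a : Lt k) : (el a)⁻¹ = el (nv a) := by
  unfold el nv
  rw [FreeGroup.inv_mk]
  simp [FreeGroup.invRev]

/-- Word length. -/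
def len (x : FreeGroup (Fin k)) : ℕ := x.toWord.length

lemma len_one : len (1 : FreeGroup (Fin k)) = 0 := by
  simp [len]

lemma len_inv (x : FreeGroup (Fin k)) : len x⁻¹ = len x := by
  unfold len
  rw [FreeGroup.toWord_inv]
  simp [FreeGroup.invRev]

lemma len_eq_zero {x : FreeGroup (Fin k)} (h : len x = 0) : x = 1 := by
  unfold len at h
  rw [List.length_eq_zero_iff] at h
  exact FreeGroup.toWord_eq_nil_iff.mp h

/-- Multiplication by a letter on the left. -/
lemma toWord_el_mul (a : Lt k) (x : FreeGroup (Fin k)) :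
    (el a * x).toWord = if x.toWord.head? = some (nv a) then x.toWord.tail else a :: x.toWord := by
  have h1 : (el a * x).toWord = FreeGroup.reduce (a :: x.toWord) := by
    conv_lhs => rw [← FreeGroup.mk_toWord (x := x)]
    unfold el
    rw [FreeGroup.mul_mk, FreeGroup.toWord_mk]
    rfl
  rw [h1, FreeGroup.reduce.cons, FreeGroup.reduce_toWord]
  rcases hx : x.toWord with _ | ⟨b, w⟩
  · simp
  · simp only [List.head?_cons, List.tail_cons, Option.some.injEq]
    by_cases h : b = nv a
    · subst h
      simp [nv]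
    · rw [if_neg h]
      rw [if_neg]
      rintro ⟨h2, h3⟩
      apply h
      unfold nv
      ext1
      · exact h2.symm
      · simp [h3]

lemma len_el_mul (a : Lt k) (x : FreeGroup (Fin k)) :
    len (el a * x) = if x.toWord.head? = some (nv a) then len x - 1 else len x + 1 := by
  unfold len
  rw [toWord_el_mul]
  split_ifs <;> simp

/-- Sum over the neighbours, left version. -/
lemma sum_left (φ : ℕ → ℝ) {x : FreeGroup (Fin k)} (hx : x ≠ 1) :
    ∑ a : Lt k, φ (len (el a * x)) = φ (len x - 1) + (2 * (k : ℝ) - 1) * φ (len x + 1) := by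
  obtain ⟨b, w, hw⟩ : ∃ b w, x.toWord = b :: w := by
    rcases h : x.toWord with _ | ⟨b, w⟩
    · exact absurd (FreeGroup.toWord_eq_nil_iff.mp h) hx
    · exact ⟨b, w, rfl⟩
  have h1 : ∀ a : Lt k, φ (len (el a * x))
      = φ (len x + 1) + (if a = nv b then φ (len x - 1) - φ (len x + 1) else 0) := by
    intro a
    rw [len_el_mul, hw]
    simp only [List.head?_cons, Option.some.injEq]
    by_cases h : b = nv a
    · subst h
      simp [nv_nv]
    · have h2 : a ≠ nv b := by
        intro h3
        apply h
        rw [h3, nv_nv]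
      simp [h, h2]
  simp_rw [h1]
  rw [Finset.sum_add_distrib]
  simp
  ring

lemma sum_one (φ : ℕ → ℝ) :
    ∑ a : Lt k, φ (len (el a * (1 : FreeGroup (Fin k)))) = 2 * (k : ℝ) * φ 1 := by
  have h1 : ∀ a : Lt k, φ (len (el a * (1 : FreeGroup (Fin k)))) = φ 1 := by
    intro a
    rw [len_el_mul]
    simp [len]
  simp_rw [h1]
  rw [Finset.sum_const, Finset.card_univ, Fintype.card_prod, Fintype.card_fin, Fintype.card_bool,
    nsmul_eq_mul]
  push_cast
  ring

/-- Sum over the neighbours, right version. -/
lemma sum_right (φ : ℕ → ℝ) (x : FreeGroup (Fin k)) :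
    ∑ a : Lt k, φ (len (x * el a)) = ∑ a : Lt k, φ (len (el a * x⁻¹)) := by
  have h1 : ∀ a : Lt k, φ (len (x * el a)) = φ (len (el (nv a) * x⁻¹)) := by
    intro a
    rw [← len_inv (x * el a), mul_inv_rev, el_inv]
  simp_rw [h1]
  exact Equiv.sum_comp (⟨nv, nv, nv_nv, nv_nv⟩ : Lt k ≃ Lt k) (fun a => φ (len (el a * x⁻¹)))

lemma sum_right_ne (φ : ℕ → ℝ) {x : FreeGroup (Fin k)} (hx : x ≠ 1) :
    ∑ a : Lt k, φ (len (x * el a)) = φ (len x - 1) + (2 * (k : ℝ) - 1) * φ (len x + 1) := by
  rw [sum_right, sum_left φ (inv_ne_one.mpr hx), len_inv]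

lemma sum_right_one (φ : ℕ → ℝ) :
    ∑ a : Lt k, φ (len ((1 : FreeGroup (Fin k)) * el a)) = 2 * (k : ℝ) * φ 1 := by
  rw [sum_right, inv_one, sum_one]

lemma len_mul_el (x : FreeGroup (Fin k)) (a : Lt k) :
    len (x * el a) = len x + 1 ∨ (len x = len (x * el a) + 1) := by
  rw [← len_inv (x * el a), mul_inv_rev, el_inv, len_el_mul, len_inv]
  by_cases h : (x⁻¹).toWord.head? = some (nv (nv a))
  · right
    rw [if_pos h]
    have h2 : 0 < len x := by
      rw [← len_inv]
      unfold len
      rcases h3 : (x⁻¹).toWord with _ | ⟨b, w⟩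
      · rw [h3] at h
        simp at h
      · simp
    omega
  · left
    rw [if_neg h]

/-- The reduced words of length `n`. -/
def W (k : ℕ) : ℕ → Finset (List (Lt k))
  | 0 => {[]}
  | n + 1 => (((Finset.univ : Finset (Lt k)) ×ˢ W k n).filter
      (fun p => p.2.head? ≠ some (nv p.1))).image (fun p => p.1 :: p.2)

lemma length_of_mem_W {n : ℕ} : ∀ {w : List (Lt k)}, w ∈ W k n → w.length = n := by
  induction n with
  | zero =>
    intro w hw
    simp [W] at hw
    simp [hw]
  | succ n ih =>
    intro w hw
    simp only [W, Finset.mem_image, Finset.mem_filter, Finset.mem_product, Finset.mem_univ,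
      true_and] at hw
    obtain ⟨p, ⟨hp, _⟩, rfl⟩ := hw
    simp [ih hp]

lemma mem_W {w : List (Lt k)} (h : FreeGroup.IsReduced w) : w ∈ W k w.length := by
  induction w with
  | nil => simp [W]
  | cons a w ih =>
    have h1 : FreeGroup.IsReduced w := List.IsChain.tail h
    simp only [W, List.length_cons, Finset.mem_image, Finset.mem_filter, Finset.mem_product,
      Finset.mem_univ, true_and]
    refine ⟨(a, w), ⟨ih h1, ?_⟩, rfl⟩
    rcases w with _ | ⟨b, w⟩
    · simp
    · simp only [List.head?_cons, ne_eq, Option.some.injEq]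
      intro hb
      have h2 : a.1 = b.1 → a.2 = b.2 := by
        unfold FreeGroup.IsReduced at h
        rw [List.isChain_cons_cons] at h
        exact h.1
      rw [hb] at h2
      simp [nv] at h2

lemma card_W_le (k : ℕ) (n : ℕ) :
    ((W k (n + 1)).card : ℝ) ≤ 2 * (k : ℝ) * (2 * (k : ℝ) - 1) ^ n := by
  induction n with
  | zero =>
    have h1 : (W k 1).card ≤ (Finset.univ : Finset (Lt k)).card := by
      refine le_trans Finset.card_image_le (le_trans (Finset.card_filter_le _ _) ?_)
      simp [W]
    have h2 : (Finset.univ : Finset (Lt k)).card = k * 2 := by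
      rw [Finset.card_univ, Fintype.card_prod, Fintype.card_fin, Fintype.card_bool]
    rw [h2] at h1
    have h3 : ((W k (0 + 1)).card : ℝ) ≤ ((k * 2 : ℕ) : ℝ) := by exact_mod_cast h1
    push_cast at h3
    simp only [pow_zero]
    linarith
  | succ n ih =>
    have h1 : ((W k (n + 1 + 1)).card : ℝ)
        ≤ ∑ w ∈ W k (n + 1), ((Finset.univ : Finset (Lt k)).filter
          (fun a => w.head? ≠ some (nv a))).card := by
      have h2 : (W k (n + 1 + 1)).card ≤ ∑ w ∈ W k (n + 1), ((Finset.univ : Finset (Lt k)).filter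
          (fun a => w.head? ≠ some (nv a))).card := by
        refine le_trans Finset.card_image_le ?_
        rw [Finset.card_filter, Finset.sum_product_right]
        apply Finset.sum_le_sum
        intro w _
        rw [Finset.card_filter]
      exact_mod_cast h2
    have h3 : ∀ w ∈ W k (n + 1), (((Finset.univ : Finset (Lt k)).filter
          (fun a => w.head? ≠ some (nv a))).card : ℝ) ≤ 2 * (k : ℝ) - 1 := by
      intro w hw
      obtain ⟨b, w', rfl⟩ : ∃ b w', w = b :: w' := by
        rcases w with _ | ⟨b, w'⟩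
        · have := length_of_mem_W hw
          simp at this
        · exact ⟨b, w', rfl⟩
      have h4 : (Finset.univ : Finset (Lt k)).filter (fun a => (b :: w').head? ≠ some (nv a))
          ⊆ (Finset.univ : Finset (Lt k)).erase (nv b) := by
        intro a ha
        simp only [Finset.mem_filter, Finset.mem_univ, true_and, List.head?_cons, ne_eq,
          Option.some.injEq] at ha
        simp only [Finset.mem_erase, Finset.mem_univ, and_true]
        intro h5
        apply ha
        rw [h5, nv_nv]
      have h5 := Finset.card_le_card h4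
      rw [Finset.card_erase_of_mem (Finset.mem_univ _), Finset.card_univ, Fintype.card_prod,
        Fintype.card_fin, Fintype.card_bool] at h5
      have h6 : 1 ≤ k * 2 := by
        have := b.1.pos
        omega
      have h7 : (((Finset.univ : Finset (Lt k)).filter
          (fun a => (b :: w').head? ≠ some (nv a))).card : ℝ) ≤ ((k * 2 - 1 : ℕ) : ℝ) := by
        exact_mod_cast h5
      rw [Nat.cast_sub h6] at h7
      push_cast at h7
      linarith
    rcases Nat.eq_zero_or_pos k with hk | hk
    · subst hk
      have h8 : (W 0 (n + 1 + 1)).card = 0 := by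
        rw [Finset.card_eq_zero]
        ext w
        simp only [W, Finset.mem_image, Finset.mem_filter, Finset.mem_product, Finset.mem_univ,
          true_and, Finset.notMem_empty, iff_false]
        rintro ⟨p, _⟩
        exact p.1.1.elim0
      rw [h8]
      simp
    · have h9 : (1 : ℝ) ≤ k := by exact_mod_cast hk
      push_cast at h1
      calc ((W k (n + 1 + 1)).card : ℝ) ≤ _ := h1
        _ ≤ ∑ w ∈ W k (n + 1), (2 * (k : ℝ) - 1) := Finset.sum_le_sum h3
        _ = (W k (n + 1)).card * (2 * (k : ℝ) - 1) := by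
          rw [Finset.sum_const, nsmul_eq_mul]
        _ ≤ (2 * (k : ℝ) * (2 * (k : ℝ) - 1) ^ n) * (2 * (k : ℝ) - 1) := by
          apply mul_le_mul_of_nonneg_right ih
          linarith
        _ = _ := by ring

/-- Summability of `t ^ |x|` below the critical exponent. -/
lemma summable_pow {t : ℝ} (ht : 0 ≤ t) (hkt : |(2 * (k : ℝ) - 1) * t| < 1) :
    Summable (fun x : FreeGroup (Fin k) => t ^ len x) := by
  have h1 : Summable (fun p : (Σ n : ℕ, {w : List (Lt k) // w ∈ W k n}) => t ^ p.1) := by
    rw [summable_sigma_of_nonneg (fun p => by positivity)]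
    refine ⟨fun n => Summable.of_finite, ?_⟩
    have h2 : ∀ n : ℕ, (∑' _ : {w : List (Lt k) // w ∈ W k n}, t ^ n) = (W k n).card * t ^ n := by
      intro n
      rw [tsum_fintype, Finset.sum_const, Finset.card_univ, Fintype.card_coe, nsmul_eq_mul]
    simp_rw [h2]
    rw [← summable_nat_add_iff 1]
    have h3 : Summable (fun n : ℕ => 2 * (k : ℝ) * t * ((2 * (k : ℝ) - 1) * t) ^ n) := by
      apply Summable.mul_left
      apply summable_geometric_of_abs_lt_one hkt
    refine Summable.of_nonneg_of_le (fun n => by positivity) ?_ h3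
    intro n
    calc ((W k (n + 1)).card : ℝ) * t ^ (n + 1)
        ≤ (2 * (k : ℝ) * (2 * (k : ℝ) - 1) ^ n) * t ^ (n + 1) := by
          apply mul_le_mul_of_nonneg_right (card_W_le k n) (by positivity)
      _ = _ := by
        rw [mul_pow]
        ring
  have h4 : Function.Injective (fun x : FreeGroup (Fin k) =>
      (⟨len x, ⟨x.toWord, mem_W FreeGroup.isReduced_toWord⟩⟩ :
        Σ n : ℕ, {w : List (Lt k) // w ∈ W k n})) := by
    intro x y hxy
    have h5 : (x.toWord) = y.toWord := by
      have h6 := congrArg (fun p : (Σ n : ℕ, {w : List (Lt k) // w ∈ W k n}) => (p.2 : List (Lt k))) hxy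
      exact h6
    exact FreeGroup.toWord_injective h5
  exact h1.comp_injective h4

end Pool.Agent.H79.HC
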