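import Pool.Agent.H79.HC.Abs
import Pool.Agent.H79.HC.Reg
import Pool.Agent.H79.HC.Word

set_option autoImplicit false
open scoped InnerProductSpace ComplexOrder
open Filter Topology

namespace Pool.Agent.H79.HC

variable {k : ℕ}

/-- The free group of rank `k`. -/
abbrev F (k : ℕ) : Type := FreeGroup (Fin k)

/-- The right regular representation as bounded operators. -/
noncomputable def rhoL (g : F k) : L2 (F k) →L[ℂ] L2 (F k) := (rho g).toLinearIsometry.toContinuousLinearMap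

/-- The left regular representation as bounded operators. -/
noncomputable def lamL (g : F k) : L2 (F k) →L[ℂ] L2 (F k) := (lam g).toLinearIsometry.toContinuousLinearMap

@[simp] lemma rhoL_apply (g : F k) (u : L2 (F k)) (x : F k) : rhoL g u x = u (x * g) := by
  unfold rhoL
  simp

@[simp] lemma lamL_apply (g : F k) (u : L2 (F k)) (x : F k) : lamL g u x = u (g⁻¹ * x) := by
  unfold lamL
  simp

lemma lam_rho_comm (g h : F k) : Commute (lamL g) (rhoL h) := by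
  unfold Commute SemiconjBy
  ext u x
  change (lamL g (rhoL h u)) x = (rhoL h (lamL g u)) x
  simp [mul_assoc]

/-- The adjacency operator. -/
noncomputable def Aop (k : ℕ) : L2 (F k) →L[ℂ] L2 (F k) := ∑ a : Lt k, rhoL (el a)

lemma Aop_apply (u : L2 (F k)) (x : F k) : Aop k u x = ∑ a : Lt k, u (x * el a) := by
  unfold Aop
  rw [sum_apply, lp.coeFn_sum]
  simp

lemma rhoL_adj (g : F k) (u v : L2 (F k)) : ⟪rhoL g u, v⟫_ℂ = ⟪u, rhoL g⁻¹ v⟫_ℂ := by
  rw [lp.inner_eq_tsum, lp.inner_eq_tsum, ← (Equiv.mulRight g⁻¹).tsum_eq (fun x => ⟪rhoL g u x, v x⟫_ℂ)]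
  apply tsum_congr
  intro x
  simp

lemma Aop_adj (u v : L2 (F k)) : ⟪Aop k u, v⟫_ℂ = ⟪u, Aop k v⟫_ℂ := by
  unfold Aop
  rw [sum_apply, sum_apply, sum_inner, inner_sum]
  simp_rw [rhoL_adj, el_inv]
  exact Equiv.sum_comp (⟨nv, nv, nv_nv, nv_nv⟩ : Lt k ≃ Lt k) (fun a => ⟪u, rhoL (el a) v⟫_ℂ)

/-- The weights of the Schur test. -/
noncomputable def wt (x : F k) (a : Lt k) : ℝ :=
  if len (x * el a) = len x + 1 then (Real.sqrt (2 * (k : ℝ) - 1))⁻¹ else Real.sqrt (2 * (k : ℝ) - 1)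

lemma q_pos (hk : 1 ≤ k) : (0 : ℝ) < 2 * (k : ℝ) - 1 := by
  have : (1 : ℝ) ≤ k := by exact_mod_cast hk
  linarith

lemma wt_pos (hk : 1 ≤ k) (x : F k) (a : Lt k) : 0 < wt x a := by
  unfold wt
  have := Real.sqrt_pos.mpr (q_pos hk)
  split_ifs <;> positivity

lemma wt_le (hk : 1 ≤ k) (x : F k) (a : Lt k) : wt x a ≤ Real.sqrt (2 * (k : ℝ) - 1) := by
  have h1 : (1 : ℝ) ≤ k := by exact_mod_cast hk
  have h2 : 1 ≤ Real.sqrt (2 * (k : ℝ) - 1) := by
    rw [Real.one_le_sqrt]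
    linarith
  unfold wt
  split_ifs
  · exact le_trans (inv_le_one_of_one_le₀ h2) h2
  · exact le_refl _

lemma wt_inv (x : F k) (a : Lt k) : (wt (x * (el a)⁻¹) a)⁻¹ = wt x (nv a) := by
  have h1 := len_mul_el (x * (el a)⁻¹) a
  rw [inv_mul_cancel_right] at h1
  unfold wt
  rw [inv_mul_cancel_right, ← el_inv]
  rcases h1 with h1 | h1
  · rw [if_pos h1, if_neg (by omega), inv_inv]
  · rw [if_neg (by omega), if_pos h1]

lemma sum_wt (hk : 1 ≤ k) (x : F k) : ∑ a : Lt k, wt x a ≤ 2 * Real.sqrt (2 * (k : ℝ) - 1) := by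
  have hq := q_pos hk
  have hs := Real.sqrt_pos.mpr hq
  have hss : Real.sqrt (2 * (k : ℝ) - 1) * Real.sqrt (2 * (k : ℝ) - 1) = 2 * (k : ℝ) - 1 :=
    Real.mul_self_sqrt hq.le
  by_cases hx : x = 1
  · subst hx
    have h1 := sum_right_one (k := k) (fun m => if m = len (1 : F k) + 1 then
      (Real.sqrt (2 * (k : ℝ) - 1))⁻¹ else Real.sqrt (2 * (k : ℝ) - 1))
    unfold wt
    refine le_of_eq_of_le h1 ?_
    rw [if_pos (by rw [len_one])]
    have h2 : (1 : ℝ) ≤ k := by exact_mod_cast hk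
    rw [← div_eq_mul_inv, div_le_iff₀ hs]
    nlinarith
  · have h1 := sum_right_ne (k := k) (fun m => if m = len x + 1 then
      (Real.sqrt (2 * (k : ℝ) - 1))⁻¹ else Real.sqrt (2 * (k : ℝ) - 1)) hx
    unfold wt
    refine le_of_eq_of_le h1 ?_
    rw [if_neg (by omega), if_pos rfl]
    have h2 : (2 * (k : ℝ) - 1) * (Real.sqrt (2 * (k : ℝ) - 1))⁻¹ = Real.sqrt (2 * (k : ℝ) - 1) := by
      field_simp
      nlinarith
    rw [h2]
    linarith

lemma norm_sq_eq (u : L2 (F k)) : ‖u‖ ^ 2 = ∑' x, ‖u x‖ ^ 2 := by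
  have := lp.norm_rpow_eq_tsum (p := 2) (by norm_num) u
  simpa using this

lemma summable_sq (u : L2 (F k)) : Summable (fun x => ‖u x‖ ^ 2) :=
  (memlp_iff _).mp (lp.memℓp u)

/-- The norm bound of the adjacency operator (Schur test). -/
lemma Aop_bound (hk : 1 ≤ k) (u : L2 (F k)) :
    (⟪Aop k u, u⟫_ℂ).re ≤ 2 * Real.sqrt (2 * (k : ℝ) - 1) * ‖u‖ ^ 2 := by
  have hsu := summable_sq u
  -- summability of the weighted sums
  have hsw : ∀ a : Lt k, Summable (fun x => wt x a * ‖u x‖ ^ 2) := by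
    intro a
    refine Summable.of_nonneg_of_le (fun x => mul_nonneg (wt_pos hk x a).le (by positivity))
      (fun x => ?_) (hsu.mul_left (Real.sqrt (2 * (k : ℝ) - 1)))
    exact mul_le_mul_of_nonneg_right (wt_le hk x a) (by positivity)
  have hsw2 : ∀ a : Lt k, Summable (fun x => (wt x a)⁻¹ * ‖u (x * el a)‖ ^ 2) := by
    intro a
    rw [← (Equiv.mulRight (el a)⁻¹).summable_iff]
    refine (hsw (nv a)).congr ?_
    intro x
    simp only [Function.comp, Equiv.coe_mulRight, inv_mul_cancel_right]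
    rw [wt_inv]
  have hts2 : ∀ a : Lt k, (∑' x, (wt x a)⁻¹ * ‖u (x * el a)‖ ^ 2) = ∑' x, wt x (nv a) * ‖u x‖ ^ 2 := by
    intro a
    rw [← (Equiv.mulRight (el a)⁻¹).tsum_eq (fun x => (wt x a)⁻¹ * ‖u (x * el a)‖ ^ 2)]
    apply tsum_congr
    intro x
    simp only [Equiv.coe_mulRight, inv_mul_cancel_right]
    rw [wt_inv]
  have h1 : ∀ a : Lt k, (⟪rhoL (el a) u, u⟫_ℂ).re
      ≤ (1 / 2) * ((∑' x, wt x a * ‖u x‖ ^ 2) + ∑' x, wt x (nv a) * ‖u x‖ ^ 2) := by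
    intro a
    have hsum := lp.hasSum_inner (𝕜 := ℂ) (rhoL (el a) u) u
    have hre := Complex.hasSum_re hsum
    rw [← hts2 a, ← (hsw a).tsum_add (hsw2 a), ← tsum_mul_left]
    refine hasSum_le ?_ hre (((hsw a).add (hsw2 a)).mul_left _).hasSum
    intro x
    have hw := wt_pos hk x a
    have h2 : (⟪(rhoL (el a) u) x, u x⟫_ℂ).re ≤ ‖u (x * el a)‖ * ‖u x‖ := by
      refine le_trans (Complex.re_le_norm _) ?_
      refine le_trans (norm_inner_le_norm _ _) ?_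
      rw [rhoL_apply]
    refine le_trans h2 ?_
    set s := Real.sqrt (wt x a) with hs
    have hs0 : 0 < s := Real.sqrt_pos.mpr hw
    have hss : s * s = wt x a := Real.mul_self_sqrt hw.le
    have h3 : 0 ≤ (s * ‖u x‖ - s⁻¹ * ‖u (x * el a)‖) ^ 2 := sq_nonneg _
    have h4 : (s * ‖u x‖ - s⁻¹ * ‖u (x * el a)‖) ^ 2
        = wt x a * ‖u x‖ ^ 2 + (wt x a)⁻¹ * ‖u (x * el a)‖ ^ 2 - 2 * (‖u (x * el a)‖ * ‖u x‖) := by
      rw [← hss]
      field_simp
      ring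
    rw [h4] at h3
    linarith
  have h2 : (⟪Aop k u, u⟫_ℂ).re = ∑ a : Lt k, (⟪rhoL (el a) u, u⟫_ℂ).re := by
    unfold Aop
    rw [sum_apply, sum_inner, Complex.re_sum]
  have h3 : ∑ a : Lt k, (∑' x, wt x (nv a) * ‖u x‖ ^ 2) = ∑ a : Lt k, ∑' x, wt x a * ‖u x‖ ^ 2 :=
    Equiv.sum_comp (⟨nv, nv, nv_nv, nv_nv⟩ : Lt k ≃ Lt k) (fun a => ∑' x, wt x a * ‖u x‖ ^ 2)
  have h4 : ∑ a : Lt k, ∑' x, wt x a * ‖u x‖ ^ 2 = ∑' x, (∑ a : Lt k, wt x a) * ‖u x‖ ^ 2 := by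
    rw [← Summable.tsum_finsetSum (fun a _ => hsw a)]
    apply tsum_congr
    intro x
    rw [Finset.sum_mul]
  have h5 : ∑' x, (∑ a : Lt k, wt x a) * ‖u x‖ ^ 2
      ≤ ∑' x, 2 * Real.sqrt (2 * (k : ℝ) - 1) * ‖u x‖ ^ 2 := by
    have h6 : Summable (fun x => 2 * Real.sqrt (2 * (k : ℝ) - 1) * ‖u x‖ ^ 2) := hsu.mul_left _
    have h7 : ∀ x, (∑ a : Lt k, wt x a) * ‖u x‖ ^ 2
        ≤ 2 * Real.sqrt (2 * (k : ℝ) - 1) * ‖u x‖ ^ 2 := fun x =>
      mul_le_mul_of_nonneg_right (sum_wt hk x) (by positivity)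
    refine Summable.tsum_le_tsum h7 (Summable.of_nonneg_of_le (fun x => ?_) h7 h6) h6
    exact mul_nonneg (Finset.sum_nonneg (fun a _ => (wt_pos hk x a).le)) (by positivity)
  rw [h2, norm_sq_eq, ← tsum_mul_left]
  refine le_trans (Finset.sum_le_sum (fun a _ => h1 a)) ?_
  rw [← Finset.mul_sum, Finset.sum_add_distrib, h3, h4]
  linarith

end Pool.Agent.H79.HC
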