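import Mathlib

set_option autoImplicit false
open scoped InnerProductSpace ComplexOrder
open Filter Topology

namespace Pool.Agent.H79.HC

/-- `(π, ξ)` is a GNS representation of `φ`: `π` is a unitary representation of `G` on `H`, the
vector `ξ` is cyclic for it and `φ(g) = ⟨π(g) ξ, ξ⟩`, inner product linear in the first variable (in
Mathlib's notation, which is linear in the second variable, this is `⟪ξ, π g ξ⟫`). -/
structure IsGNS {G : Type} [Group G] {H : Type} [NormedAddCommGroup H] [InnerProductSpace ℂ H]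
    (φ : G → ℂ) (π : G → (H ≃ₗᵢ[ℂ] H)) (ξ : H) : Prop where
  mul : ∀ g h v, π (g * h) v = π g (π h v)
  coeff : ∀ g, ⟪ξ, π g ξ⟫_ℂ = φ g
  cyclic : (Submodule.span ℂ (Set.range fun g => π g ξ)).topologicalClosure = ⊤

variable {G : Type} [Group G] {H H' : Type} [NormedAddCommGroup H] [InnerProductSpace ℂ H]
  [NormedAddCommGroup H'] [InnerProductSpace ℂ H']

lemma IsGNS.one {φ : G → ℂ} {π : G → (H ≃ₗᵢ[ℂ] H)} {ξ : H} (h : IsGNS φ π ξ) (v : H) :
    π 1 v = v := by
  have h1 := h.mul 1 1 v
  rw [one_mul] at h1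
  exact ((π 1).injective h1).symm

lemma IsGNS.inner_eq {φ : G → ℂ} {π : G → (H ≃ₗᵢ[ℂ] H)} {ξ : H} (h : IsGNS φ π ξ) (a b : G) :
    ⟪π a ξ, π b ξ⟫_ℂ = φ (a⁻¹ * b) := by
  rw [← h.coeff, ← (π a).inner_map_map ξ (π (a⁻¹ * b) ξ)]
  congr 1
  rw [← h.mul, mul_inv_cancel_left]

lemma IsGNS.dense {φ : G → ℂ} {π : G → (H ≃ₗᵢ[ℂ] H)} {ξ : H} (h : IsGNS φ π ξ) :
    DenseRange (Finsupp.linearCombination ℂ (fun g => π g ξ)) := by
  have h1 : Set.range (Finsupp.linearCombination ℂ (fun g => π g ξ))
      = (Submodule.span ℂ (Set.range fun g => π g ξ) : Set H) := by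
    rw [← Finsupp.range_linearCombination]
    rfl
  unfold DenseRange
  rw [h1]
  exact Submodule.dense_iff_topologicalClosure_eq_top.mpr h.cyclic

/-- GNS representations of one function are unitarily equivalent. -/
theorem IsGNS.unique [CompleteSpace H] [CompleteSpace H'] {φ : G → ℂ} {π : G → (H ≃ₗᵢ[ℂ] H)}
    {ξ : H} {π' : G → (H' ≃ₗᵢ[ℂ] H')} {ξ' : H'} (h : IsGNS φ π ξ) (h' : IsGNS φ π' ξ') :
    ∃ U : H ≃ₗᵢ[ℂ] H', (∀ g v, U (π g v) = π' g (U v)) ∧ U ξ = ξ' := by
  have hnorm : ∀ x : G →₀ ℂ, ‖Finsupp.linearCombination ℂ (fun g => π' g ξ')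
      (LinearEquiv.refl ℂ (G →₀ ℂ) x)‖ = ‖Finsupp.linearCombination ℂ (fun g => π g ξ) x‖ := by
    intro x
    have key : ⟪Finsupp.linearCombination ℂ (fun g => π' g ξ') x,
        Finsupp.linearCombination ℂ (fun g => π' g ξ') x⟫_ℂ
        = ⟪Finsupp.linearCombination ℂ (fun g => π g ξ) x,
        Finsupp.linearCombination ℂ (fun g => π g ξ) x⟫_ℂ := by
      rw [Finsupp.linearCombination_apply, Finsupp.linearCombination_apply]
      unfold Finsupp.sum
      simp only [sum_inner, inner_sum, inner_smul_left, inner_smul_right, h.inner_eq, h'.inner_eq]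
    rw [inner_self_eq_norm_sq_to_K, inner_self_eq_norm_sq_to_K] at key
    have key2 : ‖Finsupp.linearCombination ℂ (fun g => π' g ξ') x‖ ^ 2
        = ‖Finsupp.linearCombination ℂ (fun g => π g ξ) x‖ ^ 2 := by
      exact_mod_cast key
    exact (sq_eq_sq₀ (norm_nonneg _) (norm_nonneg _)).mp key2
  set U := (LinearEquiv.refl ℂ (G →₀ ℂ)).extendOfIsometry
    (Finsupp.linearCombination ℂ (fun g => π g ξ)) (Finsupp.linearCombination ℂ (fun g => π' g ξ'))
    h.dense h'.dense hnorm with hU
  have hUe : ∀ x, U (Finsupp.linearCombination ℂ (fun g => π g ξ) x)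
      = Finsupp.linearCombination ℂ (fun g => π' g ξ') x := fun x =>
    LinearEquiv.extendOfIsometry_eq _ _ _ h.dense h'.dense hnorm x
  have hU1 : ∀ g, U (π g ξ) = π' g ξ' := by
    intro g
    have := hUe (Finsupp.single g 1)
    simpa using this
  refine ⟨U, ?_, ?_⟩
  · intro g
    have h1 : ∀ v ∈ (Submodule.span ℂ (Set.range fun g => π g ξ)).topologicalClosure,
        U (π g v) = π' g (U v) := by
      intro v hv
      have hcl : IsClosed {v : H | U (π g v) = π' g (U v)} :=
        isClosed_eq (U.continuous.comp (π g).continuous) ((π' g).continuous.comp U.continuous)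
      have hsub : (Submodule.span ℂ (Set.range fun g => π g ξ) : Set H)
          ⊆ {v : H | U (π g v) = π' g (U v)} := by
        intro w hw
        induction hw using Submodule.span_induction with
        | mem w hw =>
          obtain ⟨b, rfl⟩ := hw
          change U (π g (π b ξ)) = π' g (U (π b ξ))
          rw [hU1, ← h.mul, ← h'.mul, hU1]
        | zero => simp
        | add x y _ _ hx hy =>
          simp only [Set.mem_ofPred_eq] at hx hy ⊢
          rw [map_add, map_add, hx, hy, map_add, map_add]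
        | smul c x _ hx =>
          simp only [Set.mem_ofPred_eq] at hx ⊢
          rw [map_smul, map_smul, hx, map_smul, map_smul]
      exact closure_minimal hsub hcl hv
    intro v
    exact h1 v (by rw [h.cyclic]; exact Submodule.mem_top)
  · have := hU1 1
    rwa [h.one, h'.one] at this

end Pool.Agent.H79.HC
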