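import Pool.Agent.H79.HC.Adj

set_option autoImplicit false
open scoped InnerProductSpace ComplexOrder
open Filter Topology

namespace Pool.Agent.H79.HC

variable {k : ℕ}

/-- The operator `2 - q^(-1/2) A`. -/
noncomputable def Bop (k : ℕ) : L2 (F k) →L[ℂ] L2 (F k) :=
  (2 : ℂ) • (1 : L2 (F k) →L[ℂ] L2 (F k)) - (((Real.sqrt (2 * (k : ℝ) - 1))⁻¹ : ℝ) : ℂ) • Aop k

lemma Bop_apply (u : L2 (F k)) (x : F k) :
    Bop k u x = 2 * u x - (((Real.sqrt (2 * (k : ℝ) - 1))⁻¹ : ℝ) : ℂ) * ∑ a : Lt k, u (x * el a) := by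
  unfold Bop
  rw [sub_apply, smul_apply, smul_apply, lp.coeFn_sub, Pi.sub_apply, lp.coeFn_smul, lp.coeFn_smul,
    Pi.smul_apply, Pi.smul_apply, Aop_apply]
  simp

lemma Bop_nonneg (hk : 1 ≤ k) : 0 ≤ Bop k := by
  rw [ContinuousLinearMap.nonneg_iff_isPositive, ContinuousLinearMap.isPositive_def]
  have hs := Real.sqrt_pos.mpr (q_pos hk)
  refine ⟨?_, ?_⟩
  · intro u v
    change ⟪Bop k u, v⟫_ℂ = ⟪u, Bop k v⟫_ℂ
    unfold Bop
    rw [sub_apply, sub_apply, smul_apply, smul_apply, smul_apply, smul_apply, inner_sub_left,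
      inner_sub_right, inner_smul_left, inner_smul_left, inner_smul_right, inner_smul_right, Aop_adj,
      map_ofNat, Complex.conj_ofReal]
    simp
  · intro u
    unfold ContinuousLinearMap.reApplyInnerSelf Bop
    rw [sub_apply, smul_apply, smul_apply, inner_sub_left, inner_smul_left, inner_smul_left]
    have h1 := Aop_bound hk u
    have h2 : (⟪(1 : L2 (F k) →L[ℂ] L2 (F k)) u, u⟫_ℂ) = ((‖u‖ ^ 2 : ℝ) : ℂ) := by
      rw [one_apply_eq_self, inner_self_eq_norm_sq_to_K]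
      norm_cast
    rw [h2]
    simp only [map_ofNat, Complex.conj_ofReal, map_sub, RCLike.re_to_complex, Complex.re_ofReal_mul]
    have h3 : (2 * ((‖u‖ ^ 2 : ℝ) : ℂ)).re = 2 * ‖u‖ ^ 2 := by
      rw [← Complex.ofReal_ofNat, ← Complex.ofReal_mul, Complex.ofReal_re]
    rw [h3]
    have h4 : (Real.sqrt (2 * (k : ℝ) - 1))⁻¹ * (⟪Aop k u, u⟫_ℂ).re
        ≤ (Real.sqrt (2 * (k : ℝ) - 1))⁻¹ * (2 * Real.sqrt (2 * (k : ℝ) - 1) * ‖u‖ ^ 2) :=
      mul_le_mul_of_nonneg_left h1 (inv_nonneg.mpr hs.le)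
    have h5 : (Real.sqrt (2 * (k : ℝ) - 1))⁻¹ * (2 * Real.sqrt (2 * (k : ℝ) - 1) * ‖u‖ ^ 2)
        = 2 * ‖u‖ ^ 2 := by
      field_simp
    linarith

/-- The subcritical Haagerup function as a vector, with a scalar factor. -/
noncomputable def kv (k : ℕ) (c s : ℝ) (h : Summable (fun x : F k => (s ^ 2) ^ len x)) : L2 (F k) :=
  ⟨fun x => ((c * s ^ len x : ℝ) : ℂ), by
    refine (memlp_iff _).mpr ?_
    refine (h.mul_left (c ^ 2)).congr ?_
    intro x
    rw [Complex.norm_real, Real.norm_eq_abs, sq_abs, mul_pow, ← pow_mul, ← pow_mul, mul_comm 2]⟩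

lemma kv_apply (c s : ℝ) (h : Summable (fun x : F k => (s ^ 2) ^ len x)) (x : F k) :
    kv k c s h x = ((c * s ^ len x : ℝ) : ℂ) := rfl

/-- The subcritical parameter `σ q^(-1/2)`. -/
noncomputable def spar (k : ℕ) (σ : ℝ) : ℝ := σ * (Real.sqrt (2 * (k : ℝ) - 1))⁻¹

lemma spar_sq (hk : 1 ≤ k) (σ : ℝ) : (2 * (k : ℝ) - 1) * spar k σ ^ 2 = σ ^ 2 := by
  have hq := q_pos hk
  unfold spar
  rw [mul_pow, inv_pow, Real.sq_sqrt hq.le]
  field_simp

lemma spar_summable (hk : 1 ≤ k) {σ : ℝ} (h0 : 0 < σ) (h1 : σ < 1) :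
    Summable (fun x : F k => (spar k σ ^ 2) ^ len x) := by
  apply summable_pow (by positivity)
  rw [spar_sq hk, abs_of_nonneg (by positivity)]
  nlinarith

/-- The equation `(B + ε) k = δ_e`. -/
lemma green (hk : 1 ≤ k) {σ : ℝ} (h0 : 0 < σ) (h1 : σ < 1) :
    Bop k (kv k (σ / (1 - spar k σ ^ 2)) (spar k σ) (spar_summable hk h0 h1))
      + (((1 - σ) ^ 2 / σ : ℝ) : ℂ) • kv k (σ / (1 - spar k σ ^ 2)) (spar k σ) (spar_summable hk h0 h1)
      = dl (1 : F k) := by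
  have hq := q_pos hk
  have hk1 : (1 : ℝ) ≤ k := by exact_mod_cast hk
  have hs := Real.sqrt_pos.mpr hq
  have hss : Real.sqrt (2 * (k : ℝ) - 1) * Real.sqrt (2 * (k : ℝ) - 1) = 2 * (k : ℝ) - 1 :=
    Real.mul_self_sqrt hq.le
  set r := (Real.sqrt (2 * (k : ℝ) - 1))⁻¹ with hr
  set s := spar k σ with hsdef
  have hsr : s = σ * r := rfl
  have hs2 : (2 * (k : ℝ) - 1) * s ^ 2 = σ ^ 2 := spar_sq hk σ
  have hrq : (2 * (k : ℝ) - 1) * (r * r) = 1 := by
    rw [hr, ← mul_inv, hss]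
    exact mul_inv_cancel₀ hq.ne'
  have hlt : s ^ 2 < 1 := by
    by_contra h
    have h' := not_lt.mp h
    nlinarith
  have hne : (1 - s ^ 2) ≠ 0 := by linarith
  set c := σ / (1 - s ^ 2) with hc
  have hc1 : c * (1 - s ^ 2) = σ := by
    rw [hc]
    field_simp
  ext x
  rw [lp.coeFn_add, Pi.add_apply, Bop_apply, lp.coeFn_smul, Pi.smul_apply, dl_apply]
  simp_rw [kv_apply]
  rw [← Complex.ofReal_sum, smul_eq_mul, ← Complex.ofReal_ofNat, ← Complex.ofReal_mul,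
    ← Complex.ofReal_mul, ← Complex.ofReal_mul, ← Complex.ofReal_sub, ← Complex.ofReal_add,
    ← Finset.mul_sum]
  have hσr : r ≠ 0 := by
    rw [hr]
    positivity
  have key : 2 * (c * s ^ len x) - r * (c * ∑ a : Lt k, s ^ len (x * el a))
      + (1 - σ) ^ 2 / σ * (c * s ^ len x) = if x = 1 then 1 else 0 := by
    by_cases hx : x = 1
    · subst hx
      rw [if_pos rfl, sum_right_one (fun m => s ^ m), len_one]
      have h2 : r * s = (σ ^ 2 - (s ^ 2)* (2 * (k : ℝ) - 1)) + r * s := by linarith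
      have h3 : r * s * (2 * (k : ℝ)) = σ + σ * (r * r) := by
        rw [hsr]
        nlinarith
      have h4 : σ * (r * r) = s ^ 2 / σ := by
        rw [hsr]
        field_simp
      have h5 : 2 * (c * s ^ 0) - r * (c * (2 * (k : ℝ) * s ^ 1)) + (1 - σ) ^ 2 / σ * (c * s ^ 0)
          = c * (2 - r * s * (2 * (k : ℝ)) + (1 - σ) ^ 2 / σ) := by ring
      rw [h5, h3, h4]
      have h6 : (2 - (σ + s ^ 2 / σ) + (1 - σ) ^ 2 / σ) = (1 - s ^ 2) / σ := by
        field_simp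
        ring
      rw [h6, ← mul_div_assoc, hc1]
      field_simp
    · rw [if_neg hx, sum_right_ne (fun m => s ^ m) hx]
      obtain ⟨n, hn⟩ : ∃ n, len x = n + 1 := by
        have : len x ≠ 0 := fun h => hx (len_eq_zero h)
        exact Nat.exists_eq_succ_of_ne_zero this
      rw [hn, Nat.add_sub_cancel]
      have h2 : r * ((2 * (k : ℝ) - 1) * s) = σ := by
        rw [hsr]
        nlinarith
      have h3 : r = s / σ := by
        rw [hsr]
        field_simp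
      have h5 : 2 * (c * s ^ (n + 1)) - r * (c * (s ^ n + (2 * (k : ℝ) - 1) * s ^ (n + 1 + 1)))
          + (1 - σ) ^ 2 / σ * (c * s ^ (n + 1))
          = c * s ^ n * (2 * s - r - (r * ((2 * (k : ℝ) - 1) * s)) * s + (1 - σ) ^ 2 / σ * s) := by
        ring
      rw [h5, h2, h3]
      have h6 : 2 * s - s / σ - σ * s + (1 - σ) ^ 2 / σ * s = 0 := by
        field_simp
        ring
      rw [h6, mul_zero]
  rw [key]
  split_ifs <;> simp

end Pool.Agent.H79.HC
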