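import Pool.Agent.H79.HC.Green

set_option autoImplicit false
open scoped InnerProductSpace ComplexOrder Pointwise
open Filter Topology

namespace Pool.Agent.H79.HC

variable {k : ℕ}

lemma sum_letters_comm : Commute (Bop k) (Aop k) := by
  unfold Bop
  refine Commute.sub_left ?_ ?_
  · exact (Commute.one_left _).smul_left _
  · exact (Commute.refl _).smul_left _

lemma lam_Aop_comm (g : F k) : Commute (Aop k) (lamL g) := by
  unfold Aop
  exact Commute.sum_left _ _ _ (fun a _ => (lam_rho_comm g (el a)).symm)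

lemma lam_Bop_comm (g : F k) : Commute (Bop k) (lamL g) := by
  unfold Bop
  refine Commute.sub_left ?_ ?_
  · exact (Commute.one_left _).smul_left _
  · exact (lam_Aop_comm g).smul_left _

/-- The parameters `σ_n`. -/
noncomputable def sg (n : ℕ) : ℝ := 1 - ((n : ℝ) + 2)⁻¹

lemma sg_pos (n : ℕ) : 0 < sg n := by
  unfold sg
  have h1 : (1 : ℝ) < (n : ℝ) + 2 := by
    have : (0 : ℝ) ≤ n := Nat.cast_nonneg n
    linarith
  have := inv_lt_one_of_one_lt₀ h1
  linarith

lemma sg_lt (n : ℕ) : sg n < 1 := by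
  unfold sg
  have h1 : (0 : ℝ) < (n : ℝ) + 2 := by positivity
  have := inv_pos.mpr h1
  linarith

lemma sg_lim : Tendsto sg atTop (𝓝 1) := by
  have h1 : Tendsto (fun n : ℕ => ((n : ℝ) + 2)⁻¹) atTop (𝓝 0) := by
    apply Filter.Tendsto.inv_tendsto_atTop
    exact tendsto_atTop_add_const_right _ _ tendsto_natCast_atTop_atTop
  have h2 := h1.const_sub (1 : ℝ)
  rw [sub_zero] at h2
  exact h2

/-- The parameters `ε_n`. -/
noncomputable def ep (n : ℕ) : ℝ := (1 - sg n) ^ 2 / sg n

lemma ep_eq (n : ℕ) : ep n = (((n : ℝ) + 1) * ((n : ℝ) + 2))⁻¹ := by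
  unfold ep sg
  have h1 : (0 : ℝ) < (n : ℝ) + 2 := by positivity
  have h2 : (0 : ℝ) < (n : ℝ) + 1 := by positivity
  have h3 : 1 - ((n : ℝ) + 2)⁻¹ = ((n : ℝ) + 1) / ((n : ℝ) + 2) := by
    field_simp
    ring
  rw [h3]
  field_simp
  ring

lemma ep_pos (n : ℕ) : 0 < ep n := by
  rw [ep_eq]
  positivity

lemma ep_anti : Antitone ep := by
  intro m n hmn
  rw [ep_eq, ep_eq]
  have h1 : (m : ℝ) ≤ n := by exact_mod_cast hmn
  gcongr

lemma ep_lim : Tendsto ep atTop (𝓝 0) := by
  have h1 : Tendsto (fun n => (1 - sg n) ^ 2 / sg n) atTop (𝓝 ((1 - 1) ^ 2 / 1)) :=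
    ((sg_lim.const_sub 1).pow 2).div sg_lim one_ne_zero
  have h2 : ((1 - 1) ^ 2 / 1 : ℝ) = 0 := by norm_num
  rw [h2] at h1
  exact h1

/-- The scalar factors. -/
noncomputable def cn (k n : ℕ) : ℝ := sg n / (1 - spar k (sg n) ^ 2)

/-- The solutions of `(B + ε_n) k_n = δ_e`. -/
noncomputable def kn (hk : 1 ≤ k) (n : ℕ) : L2 (F k) :=
  kv k (cn k n) (spar k (sg n)) (spar_summable hk (sg_pos n) (sg_lt n))

lemma kn_eq (hk : 1 ≤ k) (n : ℕ) :
    Bop k (kn hk n) + ((ep n : ℝ) : ℂ) • kn hk n = dl (1 : F k) :=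
  green hk (sg_pos n) (sg_lt n)

/-- The limit factor. -/
noncomputable def Lim (k : ℕ) : ℝ := 1 / (1 - ((Real.sqrt (2 * (k : ℝ) - 1))⁻¹) ^ 2)

lemma rinv_lt (hk : 2 ≤ k) : ((Real.sqrt (2 * (k : ℝ) - 1))⁻¹) ^ 2 < 1 := by
  have h1 : (2 : ℝ) ≤ k := by exact_mod_cast hk
  have h2 : (0 : ℝ) ≤ 2 * (k : ℝ) - 1 := by linarith
  rw [inv_pow, Real.sq_sqrt h2]
  apply inv_lt_one_of_one_lt₀
  linarith

lemma Lim_pos (hk : 2 ≤ k) : 0 < Lim k := by
  unfold Lim
  have := rinv_lt hk
  apply one_div_pos.mpr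
  linarith

lemma spar_lim (k : ℕ) : Tendsto (fun n => spar k (sg n)) atTop (𝓝 ((Real.sqrt (2 * (k : ℝ) - 1))⁻¹)) := by
  have h1 := sg_lim.mul_const ((Real.sqrt (2 * (k : ℝ) - 1))⁻¹)
  rw [one_mul] at h1
  exact h1

lemma cn_lim (hk : 2 ≤ k) : Tendsto (cn k) atTop (𝓝 (Lim k)) := by
  have h1 := rinv_lt hk
  unfold cn Lim
  exact sg_lim.div (((spar_lim k).pow 2).const_sub 1) (by linarith)

lemma cs_lim (hk : 2 ≤ k) (m : ℕ) : Tendsto (fun n => cn k n * spar k (sg n) ^ m) atTop
    (𝓝 (Lim k * ((Real.sqrt (2 * (k : ℝ) - 1))⁻¹) ^ m)) :=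
  (cn_lim hk).mul ((spar_lim k).pow m)

/-- Invariance of the cyclic subspace under an operator with adjoint. -/
lemma closure_invariant {H : Type*} [NormedAddCommGroup H] [InnerProductSpace ℂ H]
    [CompleteSpace H] {T : H →L[ℂ] H} {s : Set H}
    (h : ∀ v ∈ s, T v ∈ (Submodule.span ℂ s).topologicalClosure) :
    ∀ v ∈ (Submodule.span ℂ s).topologicalClosure, T v ∈ (Submodule.span ℂ s).topologicalClosure := by
  intro v hv
  have h1 : Submodule.span ℂ s ≤ ((Submodule.span ℂ s).topologicalClosure).comap (T : H →ₗ[ℂ] H) := by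
    rw [Submodule.span_le]
    intro w hw
    exact h w hw
  have h2 : IsClosed (((Submodule.span ℂ s).topologicalClosure).comap (T : H →ₗ[ℂ] H) : Set H) :=
    (Submodule.isClosed_topologicalClosure _).preimage T.continuous
  have h3 := Submodule.topologicalClosure_minimal _ h1 h2
  exact h3 hv

/-- The critical Haagerup function is a coefficient of the left regular representation, with a
cyclic vector. -/
theorem main (hk : 2 ≤ k) : ∃ η : L2 (F k),
    (∀ g : F k, ⟪lam g η, η⟫_ℂ = (((1 / Real.sqrt (2 * (k : ℝ) - 1)) ^ len g : ℝ) : ℂ)) ∧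
    (Submodule.span ℂ (Set.range fun g : F k => lam g η)).topologicalClosure = ⊤ := by
  have hk1 : 1 ≤ k := by omega
  have hB := Bop_nonneg hk1
  set e : L2 (F k) := dl 1 with he
  have hL : Tendsto (fun n => (⟪kn hk1 n, e⟫_ℂ).re) atTop (𝓝 (Lim k)) := by
    have h1 := cs_lim hk 0
    rw [pow_zero, mul_one] at h1
    refine h1.congr (fun n => ?_)
    rw [he, inner_dl']
    unfold kn
    rw [kv_apply, len_one, Complex.conj_ofReal, Complex.ofReal_re]
  obtain ⟨η, hη⟩ := exists_lim hB ep_pos ep_anti (kn_eq hk1) hL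
  have hsq := sqrt_apply hB ep_pos ep_lim (kn_eq hk1) hL hη
  have hco : ∀ g : F k, ⟪lamL g η, η⟫_ℂ
      = ((Lim k * ((Real.sqrt (2 * (k : ℝ) - 1))⁻¹) ^ len g : ℝ) : ℂ) := by
    intro g
    have h1 := coeff_lim hB ep_pos (kn_eq hk1) hη (lam_Bop_comm g)
    have h2 : Tendsto (fun n => ((cn k n * spar k (sg n) ^ len g : ℝ) : ℂ)) atTop
        (𝓝 ((Lim k * ((Real.sqrt (2 * (k : ℝ) - 1))⁻¹) ^ len g : ℝ) : ℂ)) :=
      (Complex.continuous_ofReal.tendsto _).comp (cs_lim hk (len g))
    refine tendsto_nhds_unique h1 (h2.congr ?_)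
    intro n
    rw [inner_dl', lamL_apply]
    unfold kn
    rw [kv_apply, Complex.conj_ofReal, mul_one, len_inv]
  set M := (Submodule.span ℂ (Set.range fun g : F k => lam g η)).topologicalClosure with hM
  have hsub : ∀ v ∈ Submodule.span ℂ (Set.range fun g : F k => lam g η), v ∈ M := fun v hv =>
    Submodule.le_topologicalClosure _ hv
  have hmem : ∀ g : F k, lamL g η ∈ M := fun g =>
    hsub _ (Submodule.subset_span ⟨g, rfl⟩)
  have hlam : ∀ (g : F k), ∀ v ∈ M, lamL g v ∈ M := by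
    intro g
    refine closure_invariant (T := lamL g) ?_
    rintro v ⟨h, rfl⟩
    have h1 : lamL g (lam h η) = lamL (g * h) η := by
      ext x
      rw [lamL_apply, lam_apply, lamL_apply]
      congr 1
      group
    rw [h1]
    exact hmem (g * h)
  have hVe : Aop k e = (∑ a : Lt k, lamL (el a)) e := by
    unfold Aop
    rw [sum_apply, sum_apply]
    have h1 : ∀ a : Lt k, rhoL (el a) e = lamL (el (nv a)) e := by
      intro a
      have h2 : rhoL (el a) e = rho (el a) e := rfl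
      have h3 : lamL (el (nv a)) e = lam (el (nv a)) e := rfl
      rw [h2, h3, he, rho_dl, lam_dl, el_inv, one_mul, mul_one]
    simp_rw [h1]
    exact Equiv.sum_comp (⟨nv, nv, nv_nv, nv_nv⟩ : Lt k ≃ Lt k) (fun a => lamL (el a) e)
  have hVη : Aop k η = (∑ a : Lt k, lamL (el a)) η :=
    agree_lim hη sum_letters_comm (Commute.sum_right _ _ _ (fun a _ => lam_Bop_comm (el a))) hVe
  have hA : ∀ v ∈ M, Aop k v ∈ M := by
    refine closure_invariant (T := Aop k) ?_
    rintro v ⟨g, rfl⟩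
    have h1 : Aop k (lam g η) = lamL g (Aop k η) :=
      congrArg (fun T : L2 (F k) →L[ℂ] L2 (F k) => T η) (lam_Aop_comm g).eq
    rw [h1, hVη, sum_apply, map_sum]
    exact Submodule.sum_mem _ (fun a _ => hlam g _ (hmem (el a)))
  have hBM : ∀ v ∈ M, Bop k v ∈ M := by
    intro v hv
    unfold Bop
    rw [sub_apply, smul_apply, smul_apply]
    exact Submodule.sub_mem _ (Submodule.smul_mem _ _ hv) (Submodule.smul_mem _ _ (hA v hv))
  have : CompleteSpace M := (Submodule.isClosed_topologicalClosure _).completeSpace_coe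
  have hBsa : ∀ u v : L2 (F k), ⟪Bop k u, v⟫_ℂ = ⟪u, Bop k v⟫_ℂ := by
    have h1 := (ContinuousLinearMap.nonneg_iff_isPositive _).mp hB
    exact fun u v => h1.1 u v
  have hcomm : Commute (Bop k) M.starProjection := by
    unfold Commute SemiconjBy
    apply ContinuousLinearMap.ext
    intro x
    change Bop k (M.starProjection x) = M.starProjection (Bop k x)
    have h1 : x = M.starProjection x + (x - M.starProjection x) := by abel
    have h2 : M.starProjection (Bop k (M.starProjection x)) = Bop k (M.starProjection x) := by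
      rw [Submodule.starProjection_eq_self_iff]
      exact hBM _ (Submodule.starProjection_apply_mem _ _)
    have h3 : M.starProjection (Bop k (x - M.starProjection x)) = 0 := by
      rw [Submodule.starProjection_apply_eq_zero_iff, Submodule.mem_orthogonal]
      intro m hm
      rw [← hBsa]
      exact Submodule.inner_right_of_mem_orthogonal (hBM m hm)
        (Submodule.sub_starProjection_mem_orthogonal x)
    calc Bop k (M.starProjection x) = M.starProjection (Bop k (M.starProjection x))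
          + M.starProjection (Bop k (x - M.starProjection x)) := by rw [h2, h3, add_zero]
      _ = M.starProjection (Bop k x) := by
        rw [← map_add, ← map_add, ← h1]
  have hcomm2 := sqrt_comm hcomm η
  have hηM : M.starProjection η = η := by
    rw [Submodule.starProjection_eq_self_iff]
    have h1 := hmem 1
    have h2 : lamL (1 : F k) η = η := by
      ext x
      rw [lamL_apply, inv_one, one_mul]
    rwa [h2] at h1
  have heM : e ∈ M := by
    rw [hηM, hsq] at hcomm2
    exact Submodule.starProjection_eq_self_iff.mp hcomm2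
  have htop : M = ⊤ := by
    rw [← Submodule.orthogonal_eq_bot_iff, Submodule.eq_bot_iff]
    intro v hv
    ext g
    have h1 : dl g ∈ M := by
      have h2 := hlam g e heM
      have h3 : lamL g e = dl g := by
        change lam g e = dl g
        rw [he, lam_dl, mul_one]
      rwa [h3] at h2
    have h4 := (Submodule.mem_orthogonal _ _).mp hv (dl g) h1
    rw [inner_dl] at h4
    simpa using h4
  have hLp := Lim_pos hk
  have hsL : 0 < Real.sqrt (Lim k) := Real.sqrt_pos.mpr hLp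
  refine ⟨(((Real.sqrt (Lim k))⁻¹ : ℝ) : ℂ) • η, ?_, ?_⟩
  · intro g
    have h1 : ⟪lam g ((((Real.sqrt (Lim k))⁻¹ : ℝ) : ℂ) • η), (((Real.sqrt (Lim k))⁻¹ : ℝ) : ℂ) • η⟫_ℂ
        = (((Real.sqrt (Lim k))⁻¹ : ℝ) : ℂ) * ((((Real.sqrt (Lim k))⁻¹ : ℝ) : ℂ) * ⟪lamL g η, η⟫_ℂ) := by
      rw [map_smul, inner_smul_left, inner_smul_right, Complex.conj_ofReal]
      rfl
    rw [h1, hco g, ← Complex.ofReal_mul, ← Complex.ofReal_mul]
    congr 1
    rw [one_div]
    have h2 : (Real.sqrt (Lim k))⁻¹ * ((Real.sqrt (Lim k))⁻¹ * (Lim k * (Real.sqrt (2 * (k : ℝ) - 1))⁻¹ ^ len g))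
        = ((Real.sqrt (Lim k))⁻¹ * (Real.sqrt (Lim k))⁻¹ * Lim k) * (Real.sqrt (2 * (k : ℝ) - 1))⁻¹ ^ len g := by
      ring
    rw [h2, ← mul_inv, Real.mul_self_sqrt hLp.le, inv_mul_cancel₀ hLp.ne', one_mul]
  · have h1 : (Set.range fun g : F k => lam g ((((Real.sqrt (Lim k))⁻¹ : ℝ) : ℂ) • η))
        = (((Real.sqrt (Lim k))⁻¹ : ℝ) : ℂ) • (Set.range fun g : F k => lam g η) := by
      ext v
      simp only [Set.mem_range, Set.mem_smul_set, exists_exists_eq_and, map_smul]
    have h2 : IsUnit ((((Real.sqrt (Lim k))⁻¹ : ℝ) : ℂ)) := by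
      rw [isUnit_iff_ne_zero, Complex.ofReal_ne_zero]
      exact (inv_pos.mpr hsL).ne'
    rw [h1, Submodule.span_smul_eq_of_isUnit _ _ h2]
    exact htop

end Pool.Agent.H79.HC
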